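import Pool.Agent.H.MP_8c536d_lc.C

set_option autoImplicit false

namespace Pool.Agent.Results.MP_8c536d_lc.No

open Pool.Agent.Lib.CX Pool.Agent.H.MP_8c536d_lc

theorem result : (∀ ε : ℚ, ε < 1 / 2 → Approx ε → FPT Clique (·.2)) ∧ (Scheme → FPT Clique (·.2)) := by
  suffices h : ∀ ε : ℚ, ε < 1 / 2 → Approx ε → FPT Clique (·.2) from
    ⟨h, fun s => h (1 / 3) (by norm_num) (s.approx (by norm_num))⟩
  intro ε hε h
  obtain ⟨A, hA, h⟩ := h.fpt
  have pw : ∀ {f g : ℕ → ℕ}, Computable f → Computable g → Computable fun k => f k ^ g k := fun a b =>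
    (Primrec₂.unpaired'.1 Nat.Primrec.pow).to_comp.comp a b
  have c2 : Computable fun k : ℕ => 2 ^ k := pw (.const 2) .id
  let R := fun z : (((Gr × ℕ) × List Unit) × List Unit) × List Unit => (red z.1.1.1.1 z.1.1.2.length z.1.2.length
    (z.1.1.2.length * z.1.1.1.1.n + 1) z.2.length, min z.1.2.length (2 ^ min z.1.1.2.length z.1.1.1.2))
  have h1 := FPT.red (A := fun z => A (R z)) (κ := fun z => z.1.1.1.2) (R := R) (PT.pair (pt_red (by fun_prop) (by fun_prop)
    (by fun_prop) (by fun_prop) (by fun_prop) (by fun_prop) (by fun_prop) (by fun_prop) (by fun_prop)) (by fun_prop)) c2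
    (fun _ => Iff.rfl) (fun z => (min_le_right _ _).trans (Nat.pow_le_pow_right two_pos (min_le_right _ _))) hA
  have h2 := prepad (κ := fun z : ((Gr × ℕ) × List Unit) × List Unit => z.1.1.2)
    (M := fun z => ((2 * min z.2.length (2 ^ min z.1.2.length z.1.1.2)) ^ 4 + 2) ^
      (ts (min z.1.2.length z.1.1.2) (min z.2.length (2 ^ min z.1.2.length z.1.1.2))).length) (by fun_prop)
    (f := fun k => ((2 * 2 ^ k) ^ 4 + 2) ^ (k * (2 ^ k * 2 ^ k)) ^ 2)
    (pw (Primrec.nat_add.to_comp.comp (pw (Primrec.nat_mul.to_comp.comp (.const 2) c2) (.const 4)) (.const 2))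
      (pw (Primrec.nat_mul.to_comp.comp .id (Primrec.nat_mul.to_comp.comp c2 c2)) (.const 2))) (fun z => by
      have a := min_le_right z.1.2.length z.1.1.2
      have b := (min_le_right z.2.length _).trans (Nat.pow_le_pow_right two_pos a)
      have c : ∀ k K, (prs k K).length ≤ k * (K * K) := fun k K =>
        (List.length_filter_le _ _).trans_eq (by simp [List.length_product])
      have d := (c _ _).trans (Nat.mul_le_mul a (Nat.mul_le_mul b b))
      rw [ts, List.length_product, ← sq]
      gcongr; omega) h1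
  have h3 := prepad (κ := fun z : (Gr × ℕ) × List Unit => z.1.2) (M := fun z => 2 ^ min z.2.length z.1.2) (by fun_prop) c2
    (fun z => Nat.pow_le_pow_right two_pos (min_le_right _ _)) h2
  have h4 := prepad (κ := fun z : Gr × ℕ => z.2) (M := fun z => z.2) (by fun_prop) .id (fun _ => le_rfl) h3
  simp only [R, List.length_replicate, min_self] at h4
  refine FPT.red (R := fun a => a) PT.id .id (fun a => ⟨fun c => (h _).1 (complete c), fun c => ?_⟩) (fun _ => le_rfl) h4
  obtain ⟨S, s1, s2⟩ := (h _).2 c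
  have s3 : 2 * S.card < 3 * 2 ^ a.2 := by
    have : (0 : ℚ) < 2 ^ a.2 := by positivity
    push_cast at s2
    exact_mod_cast (by nlinarith : (2 * S.card : ℚ) < 3 * 2 ^ a.2)
  obtain ⟨D, d1, d2⟩ := sound' rfl s1 (le_trans (b := S.card) le_rfl (by omega))
  exact extract ((Nat.mul_le_mul_left 2 d1).trans_lt s3) d2

end Pool.Agent.Results.MP_8c536d_lc.No
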